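import Pool.Agent.X245.EB.Enc
import Pool.Agent.Y669.EX.Ann

/-!
# The outcome of Edge Blocking is decidable in exponential time
-/

set_option autoImplicit false

namespace Pool.Agent.X245.EB

open Pool.Agent.NPC Pool.Agent.Y669.EX
open Pool.Agent.NPC.ANN (Forces)

/-- the occupied vertices after a move -/
def newP (P : List Bool) (u v : ℕ) : List Bool :=
  (List.range P.length).map (fun x => if x = v then true else if x = u then false
    else P.getD x false)

/-- the edges of a player -/
def eg (A : Pos) (t : Bool) : List (ℕ × ℕ) := if t = true then A.2.1.1 else A.2.1.2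

/-- the list of the positions after one move -/
def mvs (A : Pos) (s : Bool × List Bool) : List (Bool × List Bool) :=
  ((eg A s.1).filter (fun e => decide (s.2.getD e.1 false = true) &&
    decide (s.2.getD e.2 false = false))).map (fun e => (!s.1, newP s.2 e.1 e.2))

theorem length_newP (P : List Bool) (u v : ℕ) : (newP P u v).length = P.length := by
  simp [newP]

theorem getD_newP {P : List Bool} {u v : ℕ} (hv : v < P.length) :
    (fun x => (newP P u v).getD x false) =
      Function.update (Function.update (fun x => P.getD x false) u false) v true := by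
  funext x
  rw [Function.update_apply, Function.update_apply]
  unfold newP
  by_cases hx : x < P.length
  · rw [List.getD_eq_getElem _ _ (by simpa using hx)]
    simp
  · rw [List.getD_eq_default _ _ (by simpa using hx)]
    rw [if_neg (by omega)]
    split_ifs
    · rfl
    · rw [List.getD_eq_default _ _ (by omega)]

/-- All edges which can be used join vertices. -/
def InRange (A : Pos) (n : ℕ) : Prop := ∀ t, ∀ e ∈ eg A t, e.1 < n ∧ e.2 < n

theorem mem_eg {A : Pos} {t : Bool} {e : ℕ × ℕ} :
    (e ∈ bif t then A.2.1.1 else A.2.1.2) ↔ e ∈ eg A t := by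
  cases t <;> simp [eg]

theorem forces_iff {A : Pos} {s : Bool × List Bool} (hA : InRange A s.2.length) (w : Bool) :
    Forces (Mv A) w (s.1, fun v => s.2.getD v false) ↔ Forces (fun P Q => Q ∈ mvs A P) w s := by
  refine Forces.bisim_iff (R := fun (F : Bool × (ℕ → Bool)) (l : Bool × List Bool) =>
    F = (l.1, fun v => l.2.getD v false) ∧ l.2.length = s.2.length) ?_ ?_ ⟨rfl, rfl⟩
  · rintro F ⟨t, l⟩ ⟨rfl, hl⟩ ⟨t', F'⟩ ⟨h0, u, v, h1, h2, h3, h4⟩
    simp only at h0 h1 h2 h3 h4 hl
    have h3' : (u, v) ∈ eg A t := mem_eg.1 h3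
    refine ⟨(!t, newP l u v), ?_, ?_, ?_⟩
    · unfold mvs
      rw [List.mem_map]
      refine ⟨(u, v), ?_, rfl⟩
      rw [List.mem_filter]
      exact ⟨h3', by rw [h1, h2]; rfl⟩
    · subst h0 h4
      refine Prod.ext rfl ?_
      exact (getD_newP (by rw [hl]; exact (hA t _ h3').2)).symm
    · simp only; rw [length_newP, hl]
  · rintro F ⟨t, l⟩ ⟨rfl, hl⟩ l' hl'
    simp only at hl
    unfold mvs at hl'
    obtain ⟨⟨u, v⟩, he, rfl⟩ := List.mem_map.1 hl'
    rw [List.mem_filter] at he
    obtain ⟨he1, he2⟩ := he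
    simp only [Bool.and_eq_true, decide_eq_true_eq] at he2
    refine ⟨(!t, Function.update (Function.update (fun x => l.getD x false) u false) v true),
      ⟨rfl, u, v, he2.1, he2.2, mem_eg.2 he1, rfl⟩, ?_, ?_⟩
    · refine Prod.ext rfl ?_
      exact (getD_newP (by rw [hl]; exact (hA t _ he1).2)).symm
    · simp only; rw [length_newP, hl]

/-- states: a tag, the player to move and the occupied vertices -/
abbrev Sta : Type := ℕ × (Bool × List Bool)

/-- tags: `0` the other player wins, `1` the player to move wins, `2` one of the players wins -/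
def ex (_ : Pos) (s : Sta) : Bool := decide (1 ≤ s.1)

/-- successors -/
def suc (A : Pos) (s : Sta) : List Sta :=
  if s.1 = 0 then (mvs A s.2).map (fun P => (1, P))
  else if s.1 = 1 then (mvs A s.2).map (fun P => (0, P))
  else [(0, s.2), (1, s.2)]

theorem acc_of_forces {A : Pos} {w : Bool} {P : Bool × List Bool}
    (h : Forces (fun P Q => Q ∈ mvs A P) w P) : Acc ex suc A (w.toNat, P) := by
  induction h with
  | @win p q h hq ih =>
    refine Acc.some (s' := (0, q)) rfl ?_ ih
    simp [suc, h]
  | @lose p h ih =>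
    refine Acc.all rfl ?_
    intro s' hs'
    simp only [suc, Bool.toNat_false, if_true, List.mem_map] at hs'
    obtain ⟨q, hq, rfl⟩ := hs'
    exact ih q hq

theorem forces_of_acc {A : Pos} {s : Sta} (h : Acc ex suc A s) :
    (s.1 = 0 → Forces (fun P Q => Q ∈ mvs A P) false s.2) ∧
    (s.1 = 1 → Forces (fun P Q => Q ∈ mvs A P) true s.2) ∧
    (s.1 = 2 → Forces (fun P Q => Q ∈ mvs A P) false s.2 ∨
      Forces (fun P Q => Q ∈ mvs A P) true s.2) := by
  induction h with
  | @some s s' h hs h' ih =>
    refine ⟨fun h0 => ?_, fun h1 => ?_, fun h2 => ?_⟩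
    · simp [ex, h0] at h
    · simp only [suc, h1, one_ne_zero, if_false, if_true, List.mem_map] at hs
      obtain ⟨q, hq, rfl⟩ := hs
      exact .win hq (ih.1 rfl)
    · simp only [suc, h2, List.mem_cons, List.not_mem_nil, or_false] at hs
      norm_num at hs
      rcases hs with rfl | rfl
      · exact Or.inl (ih.1 rfl)
      · exact Or.inr (ih.2.1 rfl)
  | @all s h h' ih =>
    have hs0 : s.1 = 0 := by
      simp only [ex, decide_eq_false_iff_not] at h
      omega
    refine ⟨fun h0 => .lose fun q hq => ?_, fun h1 => by omega, fun h2 => by omega⟩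
    have := ih (1, q) (by simp [suc, h0, hq])
    exact this.2.1 rfl

theorem acc_iff (A : Pos) (P : Bool × List Bool) :
    (Acc ex suc A (0, P) ↔ Forces (fun P Q => Q ∈ mvs A P) false P) ∧
    (Acc ex suc A (1, P) ↔ Forces (fun P Q => Q ∈ mvs A P) true P) ∧
    (Acc ex suc A (2, P) ↔ Forces (fun P Q => Q ∈ mvs A P) false P ∨
      Forces (fun P Q => Q ∈ mvs A P) true P) := by
  refine ⟨⟨fun h => (forces_of_acc h).1 rfl, fun h => acc_of_forces h⟩,
    ⟨fun h => (forces_of_acc h).2.1 rfl, fun h => acc_of_forces h⟩,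
    ⟨fun h => (forces_of_acc h).2.2 rfl, ?_⟩⟩
  rintro (h | h)
  · exact Acc.some (s' := (0, P)) rfl (by simp [suc]) (acc_of_forces h)
  · exact Acc.some (s' := (1, P)) rfl (by simp [suc]) (acc_of_forces h)

/-! ### Sizes and polynomial time -/

/-- the length of the codes of the states -/
def mA (A : Pos) : ℕ := (10 * sz A + 20) * (10 * sz A + 20)

theorem mA_upoly : UPoly mA := by
  have h : UPoly (fun A : Pos => 10 * sz A + 20) :=
    UPoly.add (UPoly.mul (UPoly.const 10) ((UPoly.length (NPC.Med.poly_bits (α := Pos))).congr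
      fun a => by beta_reduce; rw [bits_length])) (UPoly.const 20)
  exact UPoly.mul h h

/-- the states which occur -/
def okS' (A : Pos) (s : Sta) : Prop := s.1 ≤ 2 ∧ s.2.2.length = A.2.2.1.length

theorem suc_ok (A : Pos) (s : Sta) (hs : okS' A s) : ∀ s' ∈ suc A s, okS' A s' := by
  have key : ∀ Q ∈ mvs A s.2, Q.2.length = A.2.2.1.length := by
    intro Q hQ
    unfold mvs at hQ
    obtain ⟨e, _, rfl⟩ := List.mem_map.1 hQ
    simp only
    rw [length_newP]
    exact hs.2
  intro s' hs'
  unfold suc at hs'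
  split_ifs at hs' with c1 c2
  · obtain ⟨Q, hQ, rfl⟩ := List.mem_map.1 hs'
    exact ⟨by norm_num, key Q hQ⟩
  · obtain ⟨Q, hQ, rfl⟩ := List.mem_map.1 hs'
    exact ⟨by norm_num, key Q hQ⟩
  · simp only [List.mem_cons, List.not_mem_nil, or_false] at hs'
    rcases hs' with rfl | rfl
    · exact ⟨by norm_num, hs.2⟩
    · exact ⟨by norm_num, hs.2⟩

theorem sz_parts (A : Pos) : sz A.2.1.1 ≤ sz A ∧ sz A.2.1.2 ≤ sz A ∧ sz A.2.2.1 ≤ sz A := by
  obtain ⟨a, ⟨b, c⟩, d, e⟩ := A
  simp only [sz_pair]
  omega

theorem ok_bits (A : Pos) (s : Sta) (hs : okS' A s) : (bits s).length + 1 ≤ mA A := by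
  obtain ⟨t, u, P⟩ := s
  obtain ⟨h1, h2⟩ := hs
  simp only at h1 h2
  obtain ⟨e1, e2, e3⟩ := sz_parts A
  have h5 := length_lt_sz A.2.2.1
  have h6 : sz P ≤ P.length * (3 + 1) + 1 := sz_le_length_mul P _ fun o _ => sz_bool_le o
  have h7 : sz t ≤ 20 := by
    have h8 := sz_nat_le t
    have h9 : t.size ≤ t := by
      rw [Nat.size_le]
      exact Nat.lt_two_pow_self
    omega
  have h8 := sz_bool_le u
  rw [bits_length, sz_pair, sz_pair]
  unfold mA
  nlinarith

theorem length_mvs (A : Pos) (P : Bool × List Bool) : (mvs A P).length ≤ sz A := by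
  unfold mvs
  rw [List.length_map]
  refine (List.length_filter_le _ _).trans ?_
  obtain ⟨e1, e2, e3⟩ := sz_parts A
  have h1 := length_lt_sz A.2.1.1
  have h2 := length_lt_sz A.2.1.2
  unfold eg
  split_ifs
  · omega
  · omega

theorem ok_length (A : Pos) (s : Sta) (_ : okS' A s) : (suc A s).length ≤ mA A := by
  have h := length_mvs A s.2
  unfold suc mA
  split_ifs
  · rw [List.length_map]
    nlinarith
  · rw [List.length_map]
    nlinarith
  · simp only [List.length_cons, List.length_nil]
    nlinarith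

theorem poly_newP {α : Type} [TEnc α] {P : α → List Bool} {u v : α → ℕ}
    (hP : NPC.Poly P) (hu : NPC.Poly u) (hv : NPC.Poly v) :
    NPC.Poly (fun a => newP (P a) (u a) (v a)) := by
  unfold newP
  have h1 : NPC.Poly (fun a => List.range (P a).length) := (UPoly.length hP).range
  fun_prop

theorem poly_mvs : NPC.Poly (fun p : Pos × (Bool × List Bool) => mvs p.1 p.2) := by
  unfold mvs
  have h0 : NPC.Poly (fun p : Pos × (Bool × List Bool) => eg p.1 p.2.1) := by
    unfold eg
    fun_prop
  refine NPC.Poly.map (l := fun p : Pos × (Bool × List Bool) => (eg p.1 p.2.1).filter (fun e =>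
    decide (p.2.2.getD e.1 false = true) && decide (p.2.2.getD e.2 false = false)))
    (F := fun p e => (!p.2.1, newP p.2.2 e.1 e.2)) ?_ ?_
  · refine NPC.Poly.filter (l := fun p : Pos × (Bool × List Bool) => eg p.1 p.2.1)
      (p := fun p e => decide (p.2.2.getD e.1 false = true) &&
        decide (p.2.2.getD e.2 false = false)) h0 ?_
    fun_prop
  · exact NPC.Poly.pair (by fun_prop) (poly_newP (by fun_prop) (by fun_prop) (by fun_prop))

theorem poly_ex : NPC.Poly (fun p : Pos × Sta => ex p.1 p.2) := by
  unfold ex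
  fun_prop

theorem poly_suc : NPC.Poly (fun p : Pos × Sta => suc p.1 p.2) := by
  unfold suc
  have h : NPC.Poly (fun p : Pos × Sta => mvs p.1 p.2.2) :=
    poly_mvs.comp (f := fun p : Pos × Sta => (p.1, p.2.2)) (by fun_prop)
  fun_prop

/-! ### The test for positions -/

/-- the test for correct descriptions -/
def posB (A : Pos) : Bool :=
  A.1.all (fun e => decide (e.1 < A.2.2.1.length) && (decide (e.2 < A.2.2.1.length) &&
    !(decide (e.1 = e.2)))) && ((A.2.1.1.all fun e => decide (e ∈ A.1)) &&
    A.2.1.2.all fun e => decide (e ∈ A.1))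

theorem posB_iff (A : Pos) : posB A = true ↔ IsPosition A := by
  unfold posB IsPosition
  simp only [Bool.and_eq_true, List.all_eq_true, decide_eq_true_eq, Bool.not_eq_true',
    decide_eq_false_iff_not]

theorem poly_posB : NPC.Poly posB := by
  unfold posB
  fun_prop

theorem inRange_of {A : Pos} (hA : IsPosition A) : InRange A A.2.2.1.length := by
  intro t e he
  have h1 : e ∈ A.1 := by
    unfold eg at he
    split_ifs at he
    · exact hA.2.1 e he
    · exact hA.2.2 e he
  exact ⟨(hA.1 e h1).1, (hA.1 e h1).2.1⟩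

theorem start_forces {A : Pos} (hA : IsPosition A) (w : Bool) :
    Forces (Mv A) w (start A) ↔
      Forces (fun P Q => Q ∈ mvs A P) w (A.2.2.2, A.2.2.1) :=
  forces_iff (s := (A.2.2.2, A.2.2.1)) (inRange_of hA) w

/-- the coded position -/
noncomputable def rd (x : List Bool) : Pos := (unbits Pos x).getD ([], ([], []), ([], true))

theorem poly_rd : NPC.Poly rd :=
  Poly.optGetD (g := fun _ => ([], ([], []), ([], true))) (poly_unbits (α := Pos))
    (NPC.Poly.const _)

theorem exptime_tag (t : ℕ) (ht : t ≤ 2) (neg : Bool) :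
    InEXPB (lang (fun A : Pos => IsPosition A ∧
      (Acc ex suc A (t, (A.2.2.2, A.2.2.1)) ↔ neg = false))) := by
  have hb : NPC.Poly (fun x : List Bool => (unbits Pos x).isSome && posB (rd x)) :=
    NPC.Poly.and (NPC.Poly.isSome poly_unbits) (poly_posB.comp poly_rd)
  have hst : NPC.Poly (fun A : Pos => ((t, (A.2.2.2, A.2.2.1)) : Sta)) := by fun_prop
  refine inEXPB_of_acc (ok := okS') mA_upoly poly_ex poly_suc hst
    poly_rd hb ?_ suc_ok ok_bits ok_length neg ?_
  · intro x hx
    exact ⟨ht, rfl⟩
  · intro x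
    rw [mem_lang_iff, Bool.and_eq_true, posB_iff]
    constructor
    · rintro ⟨A, h1, h2, h3⟩
      have h4 : rd x = A := by
        unfold rd
        rw [h1]
        rfl
      rw [h4, h1]
      exact ⟨⟨rfl, h2⟩, h3⟩
    · rintro ⟨⟨h1, h2⟩, h3⟩
      obtain ⟨A, hA⟩ := Option.isSome_iff_exists.1 h1
      have h4 : rd x = A := by
        unfold rd
        rw [hA]
        rfl
      rw [h4] at h2 h3
      exact ⟨A, hA, h2, h3⟩

/-- The three outcomes. -/
theorem exp_of {W : Pos → Prop} (hW : W = MoverWins ∨ W = OtherWins ∨ W = Drawn) :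
    InEXPB (lang (fun A : Pos => IsPosition A ∧ W A)) := by
  rcases hW with rfl | rfl | rfl
  · rw [Ann.lang_congr (Q := fun A : Pos => IsPosition A ∧ (Acc ex suc A
      (1, (A.2.2.2, A.2.2.1)) ↔ false = false)) fun A => and_congr_right fun hA => ?_]
    · exact exptime_tag 1 (by norm_num) false
    · unfold MoverWins
      rw [start_forces hA, (acc_iff A _).2.1]
      simp
  · rw [Ann.lang_congr (Q := fun A : Pos => IsPosition A ∧ (Acc ex suc A
      (0, (A.2.2.2, A.2.2.1)) ↔ false = false)) fun A => and_congr_right fun hA => ?_]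
    · exact exptime_tag 0 (by norm_num) false
    · unfold OtherWins
      rw [start_forces hA, (acc_iff A _).1]
      simp
  · rw [Ann.lang_congr (Q := fun A : Pos => IsPosition A ∧ (Acc ex suc A
      (2, (A.2.2.2, A.2.2.1)) ↔ true = false)) fun A => and_congr_right fun hA => ?_]
    · exact exptime_tag 2 le_rfl true
    · unfold Drawn MoverWins OtherWins
      rw [start_forces hA, start_forces hA, (acc_iff A _).2.2]
      simp only [Bool.true_eq_false, iff_false, not_or]
      tauto

end Pool.Agent.X245.EB
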