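import Pool.Agent.X245.EB.Board

/-!
# Edge Blocking: Left wins if and only if the machine accepts
-/

set_option autoImplicit false

namespace Pool.Agent.X245.EB

open Pool.Agent.NPC.ANN (Forces rl pm us up ok3 ok3_iff ok3_pred rl_mem pm_mem up_lt upd_take
  upd_nil upd_take_update mem_of_getD)
open Pool.Agent.H820R2.SS

variable {M : ARM}

/-- all registers hold values -/
def cf (σ : ℕ → Bool) : ℕ → Y := fun j => .p (σ j)

/-- register `j` is lifted -/
def lf (σ : ℕ → Bool) (j : ℕ) : ℕ → Y := Function.update (cf σ) j .q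

theorem lf_set (σ : ℕ → Bool) (j : ℕ) (b : Bool) :
    Function.update (lf σ j) j (.p b) = cf (Function.update σ j b) := by
  funext i
  simp only [lf, cf, Function.update_apply]
  split_ifs with h <;> simp_all

theorem lf_self {σ : ℕ → Bool} {j : ℕ} : lf σ j j = .q := by simp [lf]

theorem lf_ne {σ : ℕ → Bool} {i j : ℕ} (h : i ≠ j) : lf σ j i = .p (σ i) := by simp [lf, cf, h]

/-- the player to move can force a win -/
abbrev N (M : ARM) (s : Bool × (V → Bool)) : Prop := Forces (GMove (EE M)) true s

/-- the other player can force a win -/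
abbrev P (M : ARM) (s : Bool × (V → Bool)) : Prop := Forces (GMove (EE M)) false s

theorem okX {r i k : ℕ} (h : ok3 M r i k = true) : ok M (.X r i k) = true := h

theorem okS {r i k : ℕ} (h : ok3 M r i k = true) (h0 : 0 < k) : ok M (.S r i k) = true := by
  simp [ok, h, h0]

theorem okR {r : ℕ} (h : r < M.2.2.length) : ok M (.R r) = true := by simp [ok, h]

theorem okC {j : ℕ} {b : Bool} (h : j < M.1.length + 1) : ok M (.C j b) = true := by simp [ok, h]

theorem okD {j : ℕ} (h : j < M.1.length + 1) : ok M (.D j) = true := by simp [ok, h]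

theorem okReg {j : ℕ} {y : Y} (h : j < M.1.length + 1) : ok M (.reg j y) = true := by simp [ok, h]

/-- Right is stuck after Left has moved the control token into a region. -/
theorem enter {c : V} {ρ : ℕ → Y} {j : ℕ} {y : Y} (hc : isReg c = false) (h1 : ok M c = true)
    (hj : j < M.1.length + 1) (h : ladj M c (.reg j y) = true) (hy : ρ j ≠ y) :
    N M (true, pl M c ρ) := by
  refine .win (q := (false, Function.update (Function.update (pl M c ρ) c false) (.reg j y) true))
    ⟨rfl, c, .reg j y, ?_, ?_, ⟨h1, okReg hj, h⟩, rfl⟩ (.lose fun s' hs' => ?_)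
  · simp only [pl_ctl hc]; simp
  · simp only [pl_reg hc]; simp [hy]
  · exfalso
    obtain ⟨-, u, v, hu, -, ⟨-, -, h4⟩, -⟩ := hs'
    simp only [cond_false] at hu h4
    have hur : isReg u = false := by
      cases u with
      | reg j y => rw [radj_reg] at h4; exact absurd h4 (by decide)
      | _ => rfl
    rw [Function.update_apply, if_neg (by rintro rfl; simp [isReg] at hur),
      Function.update_apply] at hu
    split_ifs at hu with h5
    rw [pl_ctl hur] at hu
    exact h5 (by simpa using hu)

theorem winC {j : ℕ} {b : Bool} {ρ : ℕ → Y} (hj : j < M.1.length + 1) (h : ρ j ≠ .p (!b)) :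
    N M (true, pl M (.C j b) ρ) :=
  enter rfl (okC hj) hj (y := .p (!b)) (by simp [ladj]) h

theorem winD {j : ℕ} {ρ : ℕ → Y} (hj : j < M.1.length + 1) (h : ρ j ≠ .q) :
    N M (true, pl M (.D j) ρ) :=
  enter rfl (okD hj) hj (y := .q) (by simp [ladj]) h

theorem chain (hM : ARMPr M) {r i k : ℕ} {σ : ℕ → Bool} (h : ok3 M r i k = true)
    (hX : N M (true, pl M (.X r i 0) (cf (upd σ ((us M r i).take k))))) :
    N M (true, pl M (.X r i k) (cf σ)) := by
  induction k generalizing σ with
  | zero =>
    rw [List.take_zero, upd_nil] at hX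
    exact hX
  | succ k ih =>
    have h0 : 0 < k + 1 := Nat.succ_pos k
    have hk := ok3_pred h
    have hj : (up M r i (k + 1)).1 < M.1.length + 1 := by have := up_lt hM h h0; omega
    rw [upd_take h h0, Nat.add_sub_cancel] at hX
    have h1 := ih hk hX
    -- lift
    refine .win (left_tok (j := (up M r i (k + 1)).1) (y' := .q) rfl hj rfl)
      (.lose fun s hs => ?_)
    obtain ⟨v, hv, hadj, rfl⟩ := right_moves (c := .X r i (k + 1)) rfl hs
    cases v with
    | H0 => simp [radj] at hadj
    | C j b =>
      simp only [radj, Bool.and_eq_true, decide_eq_true_eq] at hadj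
      obtain ⟨-, rfl⟩ := hadj
      refine winC hj ?_
      rw [Function.update_self]
      simp
    | S r' i' k' =>
      simp only [radj, Bool.and_eq_true, decide_eq_true_eq] at hadj
      obtain ⟨rfl, rfl, rfl⟩ := hadj
      -- set
      refine .win (left_tok (j := (up M r i (k + 1)).1) (y' := .p (up M r i (k + 1)).2) rfl hj
        (by rw [Function.update_self]; rfl)) (.lose fun s hs => ?_)
      have e : Function.update (Function.update (cf σ) (up M r i (k + 1)).1 Y.q)
          (up M r i (k + 1)).1 (Y.p (up M r i (k + 1)).2) =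
          cf (Function.update σ (up M r i (k + 1)).1 (up M r i (k + 1)).2) := lf_set _ _ _
      rw [e] at hs
      obtain ⟨v, hv, hadj, rfl⟩ := right_moves (c := .S r i (k + 1)) rfl hs
      cases v with
      | X r' i' k' =>
        simp only [radj, Bool.and_eq_true, decide_eq_true_eq] at hadj
        obtain ⟨rfl, rfl, h3⟩ := hadj
        have h4 : k' = k := by omega
        subst h4
        exact h1
      | C j b =>
        simp only [radj, decide_eq_true_eq] at hadj
        have hj1 : (up M r i (k + 1)).1 = j := by rw [← hadj]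
        have hb1 : (up M r i (k + 1)).2 = b := by rw [← hadj]
        rw [hj1] at hj
        refine winC hj ?_
        rw [hj1, hb1]
        simp [cf]
      | D j =>
        simp only [radj, decide_eq_true_eq] at hadj
        subst hadj
        refine winD hj ?_
        simp [cf]
      | _ => simp [radj] at hadj
    | _ => simp [radj] at hadj

/-- If the machine accepts, Left wins. -/
theorem acc (hM : ARMPr M) {c : ℕ} {ρ : ℕ → Bool} (h : Der M.2.2 c ρ) : ∀ v : V,
    (v = .G ∧ c = M.2.1) ∨ (∃ r i, v = .X r i 0 ∧ ok3 M r i 0 = true ∧ c = (pm M r i).1) →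
    N M (true, pl M v (cf ρ)) := by
  induction h with
  | mk rule ρ hr hg hp ih =>
    intro v hv
    obtain ⟨r, hr1, hr2⟩ := List.getElem_of_mem hr
    have hrl : rl M r = rule := by
      unfold rl
      rw [List.getD_eq_getElem _ _ hr1, hr2]
    have hreg : isReg v = false ∧ ok M v = true ∧ ladj M v (.R r) = true ∧ V.R r ≠ v := by
      rcases hv with ⟨rfl, hc⟩ | ⟨r', i, rfl, hk, hc⟩
      · refine ⟨rfl, rfl, ?_, by simp⟩
        simp [ladj, hrl, hc]
      · refine ⟨rfl, okX hk, ?_, by simp⟩
        simp [ladj, hrl, hc]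
    refine .win (left_ctl hreg.1 rfl hreg.2.2.2 hreg.2.1 (okR hr1) hreg.2.2.1)
      (.lose fun s hs => ?_)
    obtain ⟨v', hv', hadj, rfl⟩ := right_moves (c := .R r) rfl hs
    cases v' with
    | C j b =>
      simp only [radj, decide_eq_true_eq] at hadj
      rw [hrl] at hadj
      have h1 := hg _ hadj
      have h2 := (hM _ hr).1 _ hadj
      simp only at h1 h2
      refine winC (by omega) ?_
      simp [cf, h1]
    | X r' i k =>
      simp only [radj, Bool.and_eq_true, decide_eq_true_eq] at hadj
      obtain ⟨rfl, rfl⟩ := hadj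
      have hk : ok3 M r i (us M r i).length = true := hv'
      obtain ⟨-, h3, -⟩ := ok3_iff.1 hk
      refine chain hM hk ?_
      rw [List.take_length]
      have h4 : pm M r i ∈ rule.2.2 := by rw [← hrl]; exact pm_mem h3
      refine ih _ h4 _ (Or.inr ⟨r, i, rfl, ?_, rfl⟩)
      rw [ok3_iff] at hk ⊢
      omega
    | _ => simp [radj] at hadj

/-! ### Rejection -/

/-- positions in which Left is to move and cannot force a win -/
inductive NA (M : ARM) : Bool × (V → Bool) → Prop
  | H {P : V → Bool} (h : P .H0 = !P .H1) : NA M (true, P)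
  | G {σ : ℕ → Bool} (h : ¬ Der M.2.2 M.2.1 σ) : NA M (true, pl M .G (cf σ))
  | X {r i k : ℕ} {σ : ℕ → Bool} (hk : ok3 M r i k = true)
      (h : ¬ Der M.2.2 (pm M r i).1 (upd σ ((us M r i).take k))) :
      NA M (true, pl M (.X r i k) (cf σ))
  | S {r i k : ℕ} {σ : ℕ → Bool} (hk : ok3 M r i k = true) (h0 : 0 < k)
      (h : ¬ Der M.2.2 (pm M r i).1 (upd σ ((us M r i).take k))) :
      NA M (true, pl M (.S r i k) (lf σ (up M r i k).1))
  | C {j : ℕ} {b : Bool} {ρ : ℕ → Y} (hj : j < M.1.length + 1) (h : ρ j = .p (!b)) :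
      NA M (true, pl M (.C j b) ρ)
  | D {j : ℕ} {ρ : ℕ → Y} (hj : j < M.1.length + 1) (h : ρ j = .q) :
      NA M (true, pl M (.D j) ρ)

/-- positions in which Right is to move and Left cannot force a win -/
inductive NB (M : ARM) : Bool × (V → Bool) → Prop
  | H {P : V → Bool} (h : P .H0 = !P .H1) : NB M (false, P)
  | esc {c : V} {ρ : ℕ → Y} (hc : isReg c = false) (h1 : ok M c = true)
      (h : radj M c .H0 = true) (hne : c ≠ .H1) : NB M (false, pl M c ρ)
  | R {r : ℕ} {σ : ℕ → Bool} (hr : r < M.2.2.length)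
      (h : (∀ g ∈ (rl M r).2.1, σ g.1 = g.2) →
        ∃ i, i < (rl M r).2.2.length ∧ ¬ Der M.2.2 (pm M r i).1 (upd σ (us M r i))) :
      NB M (false, pl M (.R r) (cf σ))
  | X {r i k j : ℕ} {σ : ℕ → Bool} (hk : ok3 M r i k = true) (h0 : 0 < k)
      (h : ¬ Der M.2.2 (pm M r i).1 (upd σ ((us M r i).take k))) :
      NB M (false, pl M (.X r i k) (lf σ j))
  | S {r i k : ℕ} {ρ : ℕ → Y} {σ : ℕ → Bool} (hk : ok3 M r i k = true) (h0 : 0 < k)
      (h : ¬ Der M.2.2 (pm M r i).1 (upd σ ((us M r i).take k)))
      (hρ : ρ (up M r i k).1 = .q ∨ (∃ b, ρ = cf (Function.update σ (up M r i k).1 b))) :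
      NB M (false, pl M (.S r i k) ρ)

theorem H_of {ρ : ℕ → Y} : (pl M .H0 ρ) .H0 = !(pl M .H0 ρ) .H1 := by
  rw [pl_ctl rfl, pl_ctl rfl]; rfl

theorem not_der_rule {c : ℕ} {σ : ℕ → Bool} (h : ¬ Der M.2.2 c σ) {r : ℕ}
    (hr : r < M.2.2.length) (hc : (rl M r).1 = c) : (∀ g ∈ (rl M r).2.1, σ g.1 = g.2) →
      ∃ i, i < (rl M r).2.2.length ∧ ¬ Der M.2.2 (pm M r i).1 (upd σ (us M r i)) := by
  intro hg
  by_contra hcon
  push Not at hcon
  apply h
  rw [← hc]
  refine Der.mk _ _ (rl_mem hr) hg fun s hs => ?_
  obtain ⟨i, hi, rfl⟩ := List.getElem_of_mem hs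
  have := hcon i hi
  have e : pm M r i = (rl M r).2.2[i] := by
    unfold pm
    rw [List.getD_eq_getElem _ _ hi]
  unfold us at this
  rw [e] at this
  exact this

theorem closeA : ∀ s, NA M s → ∀ s', GMove (EE M) s s' → N M s' ∨ NB M s' := by
  intro s hs s' hs'
  right
  cases hs with
  | @H P h =>
    obtain ⟨s1, s2⟩ := s'
    obtain ⟨h1, u, v, hu, hv, ⟨h2, h3, h4⟩, h5⟩ := hs'
    simp only at h1 hu hv h4 h5
    simp only [cond_true] at h4
    subst h1 h5
    have hu0 : u ≠ .H0 := by rintro rfl; cases v <;> simp [ladj] at h4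
    have hu1 : u ≠ .H1 := by rintro rfl; cases v <;> simp [ladj] at h4
    have hv0 : v ≠ .H0 := by
      rintro rfl
      cases u with
      | reg j y => cases y <;> simp [ladj] at h4
      | _ => simp [ladj] at h4
    have hv1 : v ≠ .H1 := by
      rintro rfl
      cases u with
      | reg j y => cases y <;> simp [ladj] at h4
      | _ => simp [ladj] at h4
    refine .H ?_
    rw [Function.update_of_ne hv0.symm, Function.update_of_ne hu0.symm,
      Function.update_of_ne hv1.symm, Function.update_of_ne hu1.symm]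
    exact h
  | @G σ h =>
    rcases left_moves (c := .G) rfl hs' with ⟨v, h1, h2, h3, h4⟩ | ⟨j, y', h1, h2, rfl⟩
    · cases v with
      | R r =>
        rw [h4 rfl]
        simp only [ladj, decide_eq_true_eq] at h2
        simp only [ok, decide_eq_true_eq] at h1
        exact .R h1 (not_der_rule h h1 h2)
      | _ => simp [ladj] at h2
    · exact .esc rfl rfl rfl (by simp)
  | @X r i k σ hk h =>
    rcases left_moves (c := .X r i k) rfl hs' with ⟨v, h1, h2, h3, h4⟩ | ⟨j, y', h1, h2, rfl⟩
    · cases v with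
      | R r' =>
        rw [h4 rfl]
        simp only [ladj, Bool.and_eq_true, decide_eq_true_eq] at h2
        simp only [ok, decide_eq_true_eq] at h1
        obtain ⟨rfl, h2⟩ := h2
        rw [List.take_zero, upd_nil] at h
        exact .R h1 (not_der_rule h h1 h2)
      | _ => simp [ladj] at h2
    · rcases Nat.eq_zero_or_pos k with rfl | h0
      · exact .esc rfl hk (by simp [radj]) (by simp)
      · have hy : y' = .q := by
          have h5 : tadj (.p (σ j)) y' = true := h2
          cases y' <;> simp_all [tadj]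
        subst hy
        exact .X hk h0 h
  | @S r i k σ hk h0 h =>
    rcases left_moves (c := .S r i k) rfl hs' with ⟨v, h1, h2, h3, h4⟩ | ⟨j, y', h1, h2, rfl⟩
    · cases v <;> simp [ladj] at h2
    · refine .S (σ := σ) hk h0 h ?_
      by_cases hj : j = (up M r i k).1
      · subst hj
        right
        rw [lf_self] at h2
        cases y' with
        | p b => exact ⟨b, lf_set _ _ _⟩
        | q => simp [tadj] at h2
      · left
        rw [Function.update_of_ne (Ne.symm hj), lf_self]
  | @C j b ρ hj h =>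
    rcases left_moves (c := .C j b) rfl hs' with ⟨v, h1, h2, h3, h4⟩ | ⟨j', y', h1, h2, rfl⟩
    · exfalso
      cases v with
      | reg j' y =>
        cases y with
        | p b' =>
          simp only [ladj, Bool.and_eq_true, decide_eq_true_eq] at h2
          obtain ⟨rfl, rfl⟩ := h2
          rw [pl_reg rfl, h] at h3
          simp [hj] at h3
        | q => simp [ladj] at h2
      | _ => simp [ladj] at h2
    · exact .esc rfl (okC hj) rfl (by simp)
  | @D j ρ hj h =>
    rcases left_moves (c := .D j) rfl hs' with ⟨v, h1, h2, h3, h4⟩ | ⟨j', y', h1, h2, rfl⟩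
    · exfalso
      cases v with
      | reg j' y =>
        cases y with
        | p b' => simp [ladj] at h2
        | q =>
          simp only [ladj, decide_eq_true_eq] at h2
          subst h2
          rw [pl_reg rfl, h] at h3
          simp [hj] at h3
      | _ => simp [ladj] at h2
    · exact .esc rfl (okD hj) rfl (by simp)

theorem closeB (hM : ARMPr M) : ∀ s, NB M s → ∃ s', GMove (EE M) s s' ∧ NA M s' := by
  intro s hs
  cases hs with
  | @H P h =>
    cases h1 : P .H1 with
    | false =>
      rw [h1] at h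
      refine ⟨(true, Function.update (Function.update P .H0 false) .H1 true),
        ⟨rfl, .H0, .H1, h, h1, ⟨rfl, rfl, rfl⟩, rfl⟩, .H ?_⟩
      rw [Function.update_of_ne (by simp), Function.update_self, Function.update_self]
      rfl
    | true =>
      rw [h1] at h
      refine ⟨(true, Function.update (Function.update P .H1 false) .H0 true),
        ⟨rfl, .H1, .H0, h1, h, ⟨rfl, rfl, rfl⟩, rfl⟩, .H ?_⟩
      rw [Function.update_self, Function.update_of_ne (by simp), Function.update_self]
      rfl
  | @esc c ρ hc h1 h hne =>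
    exact ⟨_, right_ctl hc h1 (v := .H0) rfl h, .H H_of⟩
  | @R r σ hr h =>
    by_cases hg : ∀ g ∈ (rl M r).2.1, σ g.1 = g.2
    · obtain ⟨i, hi, h2⟩ := h hg
      have hk : ok3 M r i (us M r i).length = true := ok3_iff.2 ⟨hr, hi, le_rfl⟩
      exact ⟨_, right_ctl rfl (okR hr) (v := .X r i (us M r i).length) hk (by simp [radj]),
        .X hk (by rwa [List.take_length])⟩
    · push Not at hg
      obtain ⟨⟨j, b⟩, hg1, hg2⟩ := hg
      simp only at hg2
      have hj := (hM _ (rl_mem hr)).1 _ hg1
      simp only at hj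
      refine ⟨_, right_ctl rfl (okR hr) (v := .C j b) (okC (by omega)) (by simp [radj, hg1]),
        .C (by omega) ?_⟩
      change Y.p (σ j) = .p (!b)
      congr 1
      revert hg2
      cases σ j <;> cases b <;> simp
  | @X r i k j σ hk h0 h =>
    have hj : (up M r i k).1 < M.1.length + 1 := by have := up_lt hM hk h0; omega
    by_cases hjj : j = (up M r i k).1
    · subst hjj
      exact ⟨_, right_ctl rfl (okX hk) (v := .S r i k) (okS hk h0) (by simp [radj]),
        .S hk h0 h⟩
    · refine ⟨_, right_ctl rfl (okX hk) (v := .C (up M r i k).1 (!(σ (up M r i k).1))) (okC hj)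
        (by simp [radj, h0]), .C hj ?_⟩
      rw [lf_ne (Ne.symm hjj)]
      simp
  | @S r i k ρ σ hk h0 h hρ =>
    have hj : (up M r i k).1 < M.1.length + 1 := by have := up_lt hM hk h0; omega
    rcases hρ with hρ | ⟨b, rfl⟩
    · exact ⟨_, right_ctl rfl (okS hk h0) (v := .D (up M r i k).1) (okD hj) (by simp [radj]),
        .D hj hρ⟩
    · by_cases hb : b = (up M r i k).2
      · subst hb
        obtain ⟨k', rfl⟩ : ∃ k', k = k' + 1 := ⟨k - 1, by omega⟩
        refine ⟨_, right_ctl rfl (okS hk h0) (v := .X r i k') (okX (ok3_pred hk))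
          (by simp [radj]), .X (ok3_pred hk) ?_⟩
        rw [upd_take hk h0, Nat.add_sub_cancel] at h
        exact h
      · refine ⟨_, right_ctl rfl (okS hk h0) (v := .C (up M r i k).1 (up M r i k).2) (okC hj)
          (by simp [radj]), .C hj ?_⟩
        simp only [cf, Function.update_self]
        congr 1
        revert hb
        cases b <;> cases (up M r i k).2 <;> simp

/-- Left, to move at `G`, wins if and only if the machine accepts. -/
theorem win_G (hM : ARMPr M) (σ : ℕ → Bool) :
    N M (true, pl M .G (cf σ)) ↔ Der M.2.2 M.2.1 σ := by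
  constructor
  · intro h
    by_contra hno
    exact Forces.not_win_of closeA (closeB hM) (NA.G hno) h
  · intro h
    exact acc hM h .G (Or.inl ⟨rfl, rfl⟩)

/-- region 0 contains exactly one token -/
def K (P : V → Bool) : Prop := (P (.reg 0 (.p false)) = true ∧ P (.reg 0 (.p true)) = false ∧
    P (.reg 0 .q) = false) ∨ (P (.reg 0 (.p false)) = false ∧ P (.reg 0 (.p true)) = true ∧
    P (.reg 0 .q) = false) ∨ (P (.reg 0 (.p false)) = false ∧ P (.reg 0 (.p true)) = false ∧
    P (.reg 0 .q) = true)

theorem K_right : ∀ s : Bool × (V → Bool), s.1 = false ∧ K s.2 → ∀ s', GMove (EE M) s s' →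
    N M s' ∨ (s'.1 = true ∧ K s'.2) := by
  rintro ⟨t, P⟩ ⟨ht, hK⟩ ⟨t', P'⟩ ⟨h1, u, v, hu, hv, ⟨h2, h3, h4⟩, h5⟩
  simp only at ht hK h1 hu hv h4 h5
  subst ht h1 h5
  simp only [cond_false] at h4
  obtain ⟨hvr, -⟩ := radj_tgt h4
  have hur : ∀ y, V.reg 0 y ≠ u := by
    rintro y rfl
    rw [radj_reg] at h4
    exact absurd h4 (by decide)
  have hvr' : ∀ y, V.reg 0 y ≠ v := by
    rintro y rfl
    simp [isReg] at hvr
  refine Or.inr ⟨rfl, ?_⟩
  unfold K
  simp only [Function.update_of_ne (hvr' _), Function.update_of_ne (hur _)]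
  exact hK

theorem K_left : ∀ s : Bool × (V → Bool), s.1 = true ∧ K s.2 → ∃ s', GMove (EE M) s s' ∧
    (s'.1 = false ∧ K s'.2) := by
  rintro ⟨t, P⟩ ⟨ht, hK⟩
  simp only at ht hK
  subst ht
  have hok : ∀ y, ok M (.reg 0 y) = true := fun y => okReg (Nat.succ_pos _)
  have hU : ∀ (u v w : V) (a b : Bool) (P : V → Bool),
      Function.update (Function.update P u a) v b w =
        if w = v then b else if w = u then a else P w := by
    intro u v w a b P
    rw [Function.update_apply, Function.update_apply]
  rcases hK with ⟨h1, h2, h3⟩ | ⟨h1, h2, h3⟩ | ⟨h1, h2, h3⟩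
  · have hK : K (Function.update (Function.update P (.reg 0 (.p false)) false) (.reg 0 .q)
        true) := by
      unfold K
      simp only [hU]
      simp [h2]
    exact ⟨(false, _), ⟨rfl, .reg 0 (.p false), .reg 0 .q, h1, h3, ⟨hok _, hok _, by
      simp [ladj]⟩, rfl⟩, rfl, hK⟩
  · have hK : K (Function.update (Function.update P (.reg 0 (.p true)) false) (.reg 0 .q)
        true) := by
      unfold K
      simp only [hU]
      simp [h1]
    exact ⟨(false, _), ⟨rfl, .reg 0 (.p true), .reg 0 .q, h2, h3, ⟨hok _, hok _, by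
      simp [ladj]⟩, rfl⟩, rfl, hK⟩
  · have hK : K (Function.update (Function.update P (.reg 0 .q) false) (.reg 0 (.p true))
        true) := by
      unfold K
      simp only [hU]
      simp [h1]
    exact ⟨(false, _), ⟨rfl, .reg 0 .q, .reg 0 (.p true), h3, h2, ⟨hok _, hok _, by
      simp [ladj]⟩, rfl⟩, rfl, hK⟩

theorem K_pl {c : V} {σ : ℕ → Bool} (hc : isReg c = false) : K (pl M c (cf σ)) := by
  unfold K
  simp only [pl_reg hc, cf]
  rcases Bool.eq_false_or_eq_true (σ 0) with h | h <;> simp [h]

/-- Left never loses. -/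
theorem not_lose (c : V) (hc : isReg c = false) (σ : ℕ → Bool) : ¬ P M (true, pl M c (cf σ)) :=
  Forces.not_lose_of (A := fun s => s.1 = false ∧ K s.2) (B := fun s => s.1 = true ∧ K s.2)
    K_right K_left ⟨rfl, K_pl hc⟩

theorem lose_I (hM : ARMPr M) (σ : ℕ → Bool) :
    P M (false, pl M .I (cf σ)) ↔ Der M.2.2 M.2.1 σ := by
  constructor
  · intro h
    cases h with
    | lose h =>
      rw [← win_G hM]
      exact h _ (right_ctl rfl rfl (v := .G) rfl rfl)
  · intro h
    rw [← win_G hM] at h
    refine .lose fun s' hs' => ?_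
    obtain ⟨v, hv, hadj, rfl⟩ := right_moves (c := .I) rfl hs'
    cases v with
    | G => exact h
    | _ => simp [radj] at hadj

end Pool.Agent.X245.EB
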