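import Pool.Agent.X245.EB.Game
import Pool.Agent.H578R2.ANN.Rej

/-!
# Edge Blocking: the board of an alternating register machine
-/

set_option autoImplicit false

namespace Pool.Agent.X245.EB

open Pool.Agent.NPC.ANN (Forces rl pm us up ok3 ok3_iff ok3_pred rl_mem pm_mem up_lt upd_take
  upd_nil upd_take_update mem_of_getD)
open Pool.Agent.H820R2.SS

/-- Positions of a register token in its region: holding a value, lifted. -/
inductive Y : Type
  | p (b : Bool)
  | q
  deriving DecidableEq

/-- Vertices. -/
inductive V : Type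
  | G | I | H0 | H1
  | R (r : ℕ)
  | X (r i k : ℕ)
  | S (r i k : ℕ)
  | C (j : ℕ) (b : Bool)
  | D (j : ℕ)
  | reg (j : ℕ) (y : Y)
  deriving DecidableEq

/-- the vertices which are used -/
def ok (M : ARM) : V → Bool
  | .R r => decide (r < M.2.2.length)
  | .X r i k => ok3 M r i k
  | .S r i k => decide (0 < k) && ok3 M r i k
  | .C j _ => decide (j < M.1.length + 1)
  | .D j => decide (j < M.1.length + 1)
  | .reg j _ => decide (j < M.1.length + 1)
  | _ => true

/-- edges of Left -/
def ladj (M : ARM) : V → V → Bool
  | .G, .R r => decide ((rl M r).1 = M.2.1)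
  | .X r i k, .R r' => decide (k = 0) && decide ((rl M r').1 = (pm M r i).1)
  | .C j b, .reg j' (.p b') => decide (j = j') && decide (b' = !b)
  | .D j, .reg j' .q => decide (j = j')
  | .reg j (.p _), .reg j' .q => decide (j = j')
  | .reg j .q, .reg j' (.p _) => decide (j = j')
  | _, _ => false

/-- edges of Right -/
def radj (M : ARM) : V → V → Bool
  | .H0, .H1 => true
  | .H1, .H0 => true
  | .I, .G => true
  | .G, .H0 => true
  | .C _ _, .H0 => true
  | .D _, .H0 => true
  | .X _ _ k, .H0 => decide (k = 0)
  | .X r i k, .S r' i' k' => decide (r = r') && (decide (i = i') && decide (k = k'))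
  | .X r i k, .C j _ => decide (0 < k) && decide (j = (up M r i k).1)
  | .S r i k, .X r' i' k' => decide (r = r') && (decide (i = i') && decide (k = k' + 1))
  | .S r i k, .C j b => decide ((j, b) = up M r i k)
  | .S r i k, .D j => decide (j = (up M r i k).1)
  | .R r, .C j b => decide ((j, b) ∈ (rl M r).2.1)
  | .R r, .X r' i k => decide (r = r') && decide (k = (us M r' i).length)
  | _, _ => false

/-- the edges of the players -/
def EE (M : ARM) (t : Bool) (u v : V) : Prop :=
  ok M u = true ∧ ok M v = true ∧ (bif t then ladj M u v else radj M u v) = true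

/-- the region vertices -/
def isReg : V → Bool
  | .reg _ _ => true
  | _ => false

/-- the occupied vertices: the control token at `c`, the register tokens at `ρ` -/
def pl (M : ARM) (c : V) (ρ : ℕ → Y) (v : V) : Bool :=
  decide (v = c) || match v with
    | .reg j y => decide (j < M.1.length + 1) && decide (ρ j = y)
    | _ => false

/-- moves of a register token -/
def tadj : Y → Y → Bool
  | .p _, .q => true
  | .q, .p _ => true
  | _, _ => false

variable {M : ARM}

theorem tadj_ne {y y' : Y} (h : tadj y y' = true) : y ≠ y' := by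
  rintro rfl
  cases y <;> simp [tadj] at h

theorem ladj_reg {j : ℕ} {y : Y} {v : V} : ladj M (.reg j y) v = true ↔
    ∃ y', v = .reg j y' ∧ tadj y y' = true := by
  constructor
  · intro h
    cases v with
    | reg j' y' =>
      cases y <;> cases y' <;> simp_all [ladj, tadj]
    | _ => cases y <;> simp [ladj] at h
  · rintro ⟨y', rfl, h⟩
    cases y <;> cases y' <;> simp_all [ladj, tadj]

theorem radj_reg {j : ℕ} {y : Y} {v : V} : radj M (.reg j y) v = false := by
  cases v <;> rfl

theorem radj_tgt {u v : V} (h : radj M u v = true) : isReg v = false ∧ v ≠ u := by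
  cases u <;> cases v <;> simp_all [radj, isReg]

theorem pl_reg {c : V} {ρ : ℕ → Y} {j : ℕ} {y : Y} (hc : isReg c = false) :
    pl M c ρ (.reg j y) = (decide (j < M.1.length + 1) && decide (ρ j = y)) := by
  have : V.reg j y ≠ c := by rintro rfl; simp [isReg] at hc
  simp [pl, this]

theorem pl_ctl {c v : V} {ρ : ℕ → Y} (hv : isReg v = false) : pl M c ρ v = decide (v = c) := by
  cases v <;> simp_all [pl, isReg]

/-- the position after a move of the control token -/
theorem pl_move {c v : V} {ρ : ℕ → Y} (hc : isReg c = false) (hv : isReg v = false)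
    (hne : v ≠ c) : pl M v ρ = Function.update (Function.update (pl M c ρ) c false) v true := by
  funext w
  simp only [Function.update_apply]
  by_cases h1 : w = v
  · subst h1
    rw [if_pos rfl, pl_ctl hv, decide_eq_true rfl]
  · rw [if_neg h1]
    by_cases h2 : w = c
    · subst h2
      rw [if_pos rfl, pl_ctl hc, decide_eq_false h1]
    · rw [if_neg h2]
      cases w with
      | reg j y => rw [pl_reg hv, pl_reg hc]
      | _ => rw [pl_ctl rfl, pl_ctl rfl, decide_eq_false h1, decide_eq_false h2]

/-- the position after a move of a register token -/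
theorem pl_tok {c : V} {ρ : ℕ → Y} {j : ℕ} {y' : Y} (hc : isReg c = false)
    (hj : j < M.1.length + 1) (hne : ρ j ≠ y') :
    pl M c (Function.update ρ j y') =
      Function.update (Function.update (pl M c ρ) (.reg j (ρ j)) false) (.reg j y') true := by
  funext w
  simp only [Function.update_apply]
  by_cases h1 : w = .reg j y'
  · rw [if_pos h1, h1, pl_reg hc, Function.update_self]
    simp [hj]
  · rw [if_neg h1]
    by_cases h2 : w = .reg j (ρ j)
    · rw [if_pos h2, h2, pl_reg hc, Function.update_self, decide_eq_false hne.symm, Bool.and_false]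
    · rw [if_neg h2]
      cases w with
      | reg j2 y2 =>
        rw [pl_reg hc, pl_reg hc]
        by_cases h3 : j2 = j
        · subst h3
          rw [Function.update_self]
          have h4 : y' ≠ y2 := by rintro rfl; exact h1 rfl
          have h5 : ρ j2 ≠ y2 := by
            intro h
            apply h2
            rw [h]
          rw [decide_eq_false h4, decide_eq_false h5]
        · rw [Function.update_of_ne h3]
      | _ => rw [pl_ctl rfl, pl_ctl rfl]

/-! ### The moves of Left -/

theorem left_tok {c : V} {ρ : ℕ → Y} {j : ℕ} {y' : Y} (hc : isReg c = false)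
    (hj : j < M.1.length + 1) (h : tadj (ρ j) y' = true) :
    GMove (EE M) (true, pl M c ρ) (false, pl M c (Function.update ρ j y')) := by
  have hne := tadj_ne h
  refine ⟨rfl, .reg j (ρ j), .reg j y', ?_, ?_, ⟨by simpa [ok] using hj, by simpa [ok] using hj,
    ?_⟩, pl_tok hc hj hne⟩
  · simp only [pl_reg hc]; simp [hj]
  · simp only [pl_reg hc]; rw [decide_eq_false hne, Bool.and_false]
  · simp only [cond_true]
    exact ladj_reg.2 ⟨y', rfl, h⟩

theorem left_ctl {c v : V} {ρ : ℕ → Y} (hc : isReg c = false) (hv : isReg v = false)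
    (hne : v ≠ c) (h1 : ok M c = true) (h2 : ok M v = true) (h : ladj M c v = true) :
    GMove (EE M) (true, pl M c ρ) (false, pl M v ρ) := by
  refine ⟨rfl, c, v, ?_, ?_, ⟨h1, h2, h⟩, pl_move hc hv hne⟩
  · simp only [pl_ctl hc]; simp
  · simp only [pl_ctl hv]; simp [hne]

theorem right_ctl {c v : V} {ρ : ℕ → Y} (hc : isReg c = false)
    (h1 : ok M c = true) (h2 : ok M v = true) (h : radj M c v = true) :
    GMove (EE M) (false, pl M c ρ) (true, pl M v ρ) := by
  obtain ⟨hv, hne⟩ := radj_tgt h
  refine ⟨rfl, c, v, ?_, ?_, ⟨h1, h2, h⟩, pl_move hc hv hne⟩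
  · simp only [pl_ctl hc]; simp
  · simp only [pl_ctl hv]; simp [hne]

/-- all moves of Right -/
theorem right_moves {c : V} {ρ : ℕ → Y} {s : Bool × (V → Bool)} (hc : isReg c = false)
    (h : GMove (EE M) (false, pl M c ρ) s) : ∃ v, ok M v = true ∧ radj M c v = true ∧
      s = (true, pl M v ρ) := by
  obtain ⟨s1, s2⟩ := s
  obtain ⟨h1, u, v, hu, hv, ⟨h2, h3, h4⟩, h5⟩ := h
  simp only at h1 hu hv h4 h5
  simp only [cond_false] at h4
  have hur : isReg u = false := by
    cases u with
    | reg j y => rw [radj_reg] at h4; exact absurd h4 (by decide)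
    | _ => rfl
  have huc : u = c := by
    rw [pl_ctl hur] at hu
    simpa using hu
  subst huc
  obtain ⟨hvr, hne⟩ := radj_tgt h4
  exact ⟨v, h3, h4, Prod.ext h1 (h5.trans (pl_move hc hvr hne).symm)⟩

/-- all moves of Left -/
theorem left_moves {c : V} {ρ : ℕ → Y} {s : Bool × (V → Bool)} (hc : isReg c = false)
    (h : GMove (EE M) (true, pl M c ρ) s) :
    (∃ v, ok M v = true ∧ ladj M c v = true ∧ pl M c ρ v = false ∧
      (isReg v = false → s = (false, pl M v ρ))) ∨
    ∃ j y', j < M.1.length + 1 ∧ tadj (ρ j) y' = true ∧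
      s = (false, pl M c (Function.update ρ j y')) := by
  obtain ⟨s1, s2⟩ := s
  obtain ⟨h1, u, v, hu, hv, ⟨h2, h3, h4⟩, h5⟩ := h
  simp only at h1 hu hv h4 h5
  simp only [cond_true] at h4
  by_cases hur : isReg u = false
  · left
    have huc : u = c := by
      rw [pl_ctl hur] at hu
      simpa using hu
    subst huc
    refine ⟨v, h3, h4, hv, fun hvr => Prod.ext h1 (h5.trans (pl_move hc hvr ?_).symm)⟩
    rintro rfl
    rw [hu] at hv
    exact absurd hv (by decide)
  · right
    cases u with
    | reg j y =>
      rw [pl_reg hc, Bool.and_eq_true, decide_eq_true_eq, decide_eq_true_eq] at hu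
      obtain ⟨hj, hy⟩ := hu
      obtain ⟨y', rfl, h6⟩ := ladj_reg.1 h4
      subst hy
      exact ⟨j, y', hj, h6, Prod.ext h1 (h5.trans (pl_tok hc hj (tadj_ne h6)).symm)⟩
    | _ => simp [isReg] at hur

end Pool.Agent.X245.EB
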