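import Pool.Agent.X245.EB.Acc
import Pool.Agent.H578R2.ANN.Enc
import Pool.Agent.H671R2.PolyAuto

/-!
# Edge Blocking: instances
-/

set_option autoImplicit false

namespace Pool.Agent.X245.EB

open Pool.Agent.NPC
open Pool.Agent.NPC.ANN (Forces rl pm us up ok3 ok3_iff ok3_pred rl_mem pm_mem up_lt Lb Bd
  Bd_regs Bd_rules Bd_prems Bd_upd)
open Pool.Agent.H820R2.SS

/-- Descriptions of positions of Edge Blocking: the edges of the digraph, the edges of Left and the
edges of Right, for every vertex whether it is occupied, and the player to move (`true` is Left).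
The vertices are the numbers smaller than the length of the list of the occupied vertices. -/
abbrev Pos : Type := List (ℕ × ℕ) × (List (ℕ × ℕ) × List (ℕ × ℕ)) × (List Bool × Bool)

/-- The description is correct: the edges join distinct vertices, and the players use edges of the
digraph. -/
def IsPosition (A : Pos) : Prop :=
  (∀ e ∈ A.1, e.1 < A.2.2.1.length ∧ e.2 < A.2.2.1.length ∧ e.1 ≠ e.2) ∧
  (∀ e ∈ A.2.1.1, e ∈ A.1) ∧ ∀ e ∈ A.2.1.2, e ∈ A.1

/-- The moves of the game. -/
def Mv (A : Pos) : Bool × (ℕ → Bool) → Bool × (ℕ → Bool) → Prop :=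
  GMove fun t u v => (u, v) ∈ bif t then A.2.1.1 else A.2.1.2

/-- The position which is described. -/
def start (A : Pos) : Bool × (ℕ → Bool) := (A.2.2.2, fun v => A.2.2.1.getD v false)

/-- The player to move can force a win. -/
def MoverWins (A : Pos) : Prop := Forces (Mv A) true (start A)

/-- The other player can force a win. -/
def OtherWins (A : Pos) : Prop := Forces (Mv A) false (start A)

/-- Neither player can force a win. -/
def Drawn (A : Pos) : Prop := ¬ MoverWins A ∧ ¬ OtherWins A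

/-! ### Labels -/

/-- The label of a vertex. -/
def code : V → Lb
  | .G => (0, 0, 0, 0)
  | .I => (1, 0, 0, 0)
  | .H0 => (2, 0, 0, 0)
  | .H1 => (3, 0, 0, 0)
  | .R r => (4, r, 0, 0)
  | .X r i k => (5, r, i, k)
  | .S r i k => (6, r, i, k)
  | .C j b => (7, j, b.toNat, 0)
  | .D j => (8, j, 0, 0)
  | .reg j (.p b) => (9, j, b.toNat, 0)
  | .reg j .q => (10, j, 0, 0)

theorem toNat_inj {b b' : Bool} (h : b.toNat = b'.toNat) : b = b' := by
  cases b <;> cases b' <;> simp_all

theorem code_inj : Function.Injective code := by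
  intro a b h
  rcases a with _ | _ | _ | _ | r | ⟨r, i, k⟩ | ⟨r, i, k⟩ | ⟨j, c⟩ | j | ⟨j, y | _⟩ <;>
  rcases b with _ | _ | _ | _ | r' | ⟨r', i', k'⟩ | ⟨r', i', k'⟩ | ⟨j', c'⟩ | j' |
    ⟨j', y' | _⟩ <;>
  first
    | rfl
    | (exfalso; revert h; simp [code]; done)
    | (simp [code] at h; simp [h]; done)
    | (simp only [code, Prod.mk.injEq, true_and, and_true] at h
       obtain ⟨rfl, h⟩ := h
       rw [toNat_inj h])

/-- the labels of the used vertices -/
def okL (M : ARM) (z : Lb) : Bool :=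
  let k := z.1
  let a := z.2.1
  let b := z.2.2.1
  let c := z.2.2.2
  (decide (k ≤ 3) && (decide (a = 0) && (decide (b = 0) && decide (c = 0)))) ||
  (decide (k = 4) && (decide (a < M.2.2.length) && (decide (b = 0) && decide (c = 0)))) ||
  (decide (k = 5) && ok3 M a b c) ||
  (decide (k = 6) && (decide (0 < c) && ok3 M a b c)) ||
  ((decide (k = 7) || decide (k = 9)) && (decide (a < M.1.length + 1) && (decide (b < 2) &&
    decide (c = 0)))) ||
  ((decide (k = 8) || decide (k = 10)) && (decide (a < M.1.length + 1) && (decide (b = 0) &&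
    decide (c = 0))))

theorem okL_code (M : ARM) (v : V) : okL M (code v) = ok M v := by
  rcases v with _ | _ | _ | _ | r | ⟨r, i, k⟩ | ⟨r, i, k⟩ | ⟨j, c⟩ | j | ⟨j, y | _⟩ <;>
    simp [okL, ok, code]
  all_goals first
    | congr; done
    | (cases c <;> simp <;> congr; done)
    | (cases y <;> simp <;> congr)

theorem okL_surj {M : ARM} {z : Lb} (hk : z.1 < 11) (h : okL M z = true) : ∃ v, code v = z := by
  obtain ⟨k, a, b, c⟩ := z
  simp only at hk
  interval_cases k <;> simp [okL] at h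
  · obtain ⟨rfl, rfl, rfl⟩ := h
    exact ⟨.G, rfl⟩
  · obtain ⟨rfl, rfl, rfl⟩ := h
    exact ⟨.I, rfl⟩
  · obtain ⟨rfl, rfl, rfl⟩ := h
    exact ⟨.H0, rfl⟩
  · obtain ⟨rfl, rfl, rfl⟩ := h
    exact ⟨.H1, rfl⟩
  · obtain ⟨_, rfl, rfl⟩ := h
    exact ⟨.R a, rfl⟩
  · exact ⟨.X a b c, rfl⟩
  · exact ⟨.S a b c, rfl⟩
  · obtain ⟨_, hb, rfl⟩ := h
    refine ⟨.C a (decide (b = 1)), ?_⟩
    interval_cases b <;> simp [code]
  · obtain ⟨_, rfl, rfl⟩ := h
    exact ⟨.D a, rfl⟩
  · obtain ⟨_, hb, rfl⟩ := h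
    refine ⟨.reg a (.p (decide (b = 1))), ?_⟩
    interval_cases b <;> simp [code]
  · obtain ⟨_, rfl, rfl⟩ := h
    exact ⟨.reg a .q, rfl⟩

/-- adjacency for Left, part 1 -/
def lL1 (M : ARM) (z z' : Lb) : Bool :=
  (decide (z.1 = 0) && (decide (z'.1 = 4) && decide ((rl M z'.2.1).1 = M.2.1))) ||
  (decide (z.1 = 5) && (decide (z'.1 = 4) && (decide (z.2.2.2 = 0) &&
    decide ((rl M z'.2.1).1 = (pm M z.2.1 z.2.2.1).1))))

/-- adjacency for Left, part 2 -/
def lL2 (z z' : Lb) : Bool :=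
  (decide (z.1 = 7) && (decide (z'.1 = 9) && (decide (z.2.1 = z'.2.1) &&
    decide (decide (z'.2.2.1 = 1) = !decide (z.2.2.1 = 1))))) ||
  ((decide (z.1 = 8) && (decide (z'.1 = 10) && decide (z.2.1 = z'.2.1))) ||
  ((decide (z.1 = 9) && (decide (z'.1 = 10) && decide (z.2.1 = z'.2.1))) ||
  (decide (z.1 = 10) && (decide (z'.1 = 9) && decide (z.2.1 = z'.2.1)))))

/-- adjacency for Left -/
def lL (M : ARM) (z z' : Lb) : Bool := lL1 M z z' || lL2 z z'

/-- adjacency for Right, part 1 -/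
def rL1 (z z' : Lb) : Bool :=
  (decide (z.1 = 2) && decide (z'.1 = 3)) || ((decide (z.1 = 3) && decide (z'.1 = 2)) ||
  ((decide (z.1 = 1) && decide (z'.1 = 0)) || ((decide (z.1 = 0) && decide (z'.1 = 2)) ||
  ((decide (z.1 = 7) && decide (z'.1 = 2)) || (decide (z.1 = 8) && decide (z'.1 = 2))))))

/-- adjacency for Right, part 2 -/
def rL2 (M : ARM) (z z' : Lb) : Bool :=
  decide (z.1 = 5) && ((decide (z'.1 = 2) && decide (z.2.2.2 = 0)) ||
    ((decide (z'.1 = 6) && (decide (z.2.1 = z'.2.1) && (decide (z.2.2.1 = z'.2.2.1) &&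
      decide (z.2.2.2 = z'.2.2.2)))) ||
    (decide (z'.1 = 7) && (decide (0 < z.2.2.2) &&
      decide (z'.2.1 = (up M z.2.1 z.2.2.1 z.2.2.2).1)))))

/-- adjacency for Right, part 3 -/
def rL3 (M : ARM) (z z' : Lb) : Bool :=
  decide (z.1 = 6) && ((decide (z'.1 = 5) && (decide (z.2.1 = z'.2.1) &&
      (decide (z.2.2.1 = z'.2.2.1) && decide (z.2.2.2 = z'.2.2.2 + 1)))) ||
    ((decide (z'.1 = 7) && decide ((z'.2.1, decide (z'.2.2.1 = 1)) =
      up M z.2.1 z.2.2.1 z.2.2.2)) ||
    (decide (z'.1 = 8) && decide (z'.2.1 = (up M z.2.1 z.2.2.1 z.2.2.2).1))))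

/-- adjacency for Right, part 4 -/
def rL4 (M : ARM) (z z' : Lb) : Bool :=
  decide (z.1 = 4) && ((decide (z'.1 = 7) &&
    decide ((z'.2.1, decide (z'.2.2.1 = 1)) ∈ (rl M z.2.1).2.1)) ||
    (decide (z'.1 = 5) && (decide (z.2.1 = z'.2.1) &&
      decide (z'.2.2.2 = (us M z'.2.1 z'.2.2.1).length))))

/-- adjacency for Right -/
def rL (M : ARM) (z z' : Lb) : Bool := (rL1 z z' || rL2 M z z') || (rL3 M z z' || rL4 M z z')

theorem lL_code (M : ARM) (u v : V) : lL M (code u) (code v) = ladj M u v := by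
  rcases u with _ | _ | _ | _ | r | ⟨r, i, k⟩ | ⟨r, i, k⟩ | ⟨j, c⟩ | j | ⟨j, y | _⟩ <;>
  rcases v with _ | _ | _ | _ | r' | ⟨r', i', k'⟩ | ⟨r', i', k'⟩ | ⟨j', c'⟩ | j' |
    ⟨j', y' | _⟩ <;> simp [lL, lL1, lL2, ladj, code]
  all_goals congr

theorem rL_code (M : ARM) (u v : V) : rL M (code u) (code v) = radj M u v := by
  rcases u with _ | _ | _ | _ | r | ⟨r, i, k⟩ | ⟨r, i, k⟩ | ⟨j, c⟩ | j | ⟨j, y | _⟩ <;>
  rcases v with _ | _ | _ | _ | r' | ⟨r', i', k'⟩ | ⟨r', i', k'⟩ | ⟨j', c'⟩ | j' |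
    ⟨j', y' | _⟩ <;> simp [rL, rL1, rL2, rL3, rL4, radj, code]
  all_goals congr

/-! ### The instance -/

/-- all labels -/
def vs (M : ARM) : List Lb :=
  ((List.range 11) ×ˢ ((List.range (Bd M)) ×ˢ ((List.range (Bd M)) ×ˢ (List.range (Bd M))))).filter
    (okL M)

theorem vs_nodup (M : ARM) : (vs M).Nodup := by
  unfold vs
  apply List.Nodup.filter
  exact List.nodup_range.product (List.nodup_range.product
    (List.nodup_range.product List.nodup_range))

theorem mem_vs {M : ARM} {z : Lb} : z ∈ vs M ↔ ∃ v, ok M v = true ∧ code v = z := by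
  unfold vs
  rw [List.mem_filter]
  constructor
  · rintro ⟨h1, h2⟩
    have h3 : z.1 < 11 := by
      obtain ⟨k, a, b, c⟩ := z
      simp only [List.mem_product, List.mem_range] at h1
      exact h1.1
    obtain ⟨v, rfl⟩ := okL_surj h3 h2
    exact ⟨v, by rwa [okL_code] at h2, rfl⟩
  · rintro ⟨v, hv, rfl⟩
    refine ⟨?_, by rw [okL_code]; exact hv⟩
    have hB := Bd_regs M
    have hB2 := Bd_rules M
    rcases v with _ | _ | _ | _ | r | ⟨r, i, k⟩ | ⟨r, i, k⟩ | ⟨j, c⟩ | j | ⟨j, y | _⟩ <;>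
    simp only [code, List.mem_product, List.mem_range]
    · omega
    · omega
    · omega
    · omega
    · simp only [ok, decide_eq_true_eq] at hv
      omega
    · simp only [ok] at hv
      obtain ⟨h1, h2, h3⟩ := ok3_iff.1 hv
      exact ⟨by omega, by omega, Bd_prems h1 h2, Bd_upd hv⟩
    · simp only [ok, Bool.and_eq_true] at hv
      obtain ⟨h1, h2, h3⟩ := ok3_iff.1 hv.2
      exact ⟨by omega, by omega, Bd_prems h1 h2, Bd_upd hv.2⟩
    · simp only [ok, decide_eq_true_eq] at hv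
      have : c.toNat ≤ 1 := by cases c <;> simp
      omega
    · simp only [ok, decide_eq_true_eq] at hv
      omega
    · simp only [ok, decide_eq_true_eq] at hv
      have : y.toNat ≤ 1 := by cases y <;> simp
      omega
    · simp only [ok, decide_eq_true_eq] at hv
      omega

/-- the number of a vertex -/
def nu (M : ARM) (v : V) : ℕ := (vs M).idxOf (code v)

theorem nu_lt {M : ARM} {v : V} (h : ok M v = true) : nu M v < (vs M).length :=
  List.idxOf_lt_length_iff.2 (mem_vs.2 ⟨v, h, rfl⟩)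

theorem nu_get {M : ARM} {v : V} (h : ok M v = true) (d : Lb) :
    (vs M).getD (nu M v) d = code v := by
  rw [List.getD_eq_getElem _ _ (nu_lt h)]
  exact List.getElem_idxOf (nu_lt h)

theorem nu_inj {M : ARM} {u v : V} (hu : ok M u = true) (hv : ok M v = true)
    (h : nu M u = nu M v) : u = v := by
  apply code_inj
  rw [← nu_get hu (0, 0, 0, 0), ← nu_get hv (0, 0, 0, 0), h]

theorem nu_surj {M : ARM} {x : ℕ} (h : x < (vs M).length) : ∃ v, ok M v = true ∧ nu M v = x := by
  obtain ⟨v, hv, hc⟩ := mem_vs.1 (List.getElem_mem h)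
  refine ⟨v, hv, ?_⟩
  unfold nu
  rw [hc]
  exact (vs_nodup M).idxOf_getElem x h

/-- the pairs of vertices satisfying a test on labels -/
def edg (l : List Lb) (t : Lb → Lb → Bool) : List (ℕ × ℕ) :=
  ((List.range l.length) ×ˢ (List.range l.length)).filter
    (fun p => t (l.getD p.1 (0, 0, 0, 0)) (l.getD p.2 (0, 0, 0, 0)))

/-- The instance; the control token starts at the vertex with label `(c, 0, 0, 0)`, and Left is to
move if and only if `c = 0`. -/
def inst (c : ℕ) (M : ARM) : Pos :=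
  (edg (vs M) (lL M) ++ edg (vs M) (rL M), (edg (vs M) (lL M), edg (vs M) (rL M)),
    ((vs M).map (fun z => decide (z = (c, 0, 0, 0)) || (decide (z.1 = 9) && decide (z.2.2.1 = 0))),
      decide (c = 0)))

theorem mem_edg {M : ARM} {t : Lb → Lb → Bool} {x y : ℕ} : (x, y) ∈ edg (vs M) t ↔
    ∃ u v, ok M u = true ∧ ok M v = true ∧ t (code u) (code v) = true ∧ nu M u = x ∧
      nu M v = y := by
  unfold edg
  rw [List.mem_filter, List.mem_product, List.mem_range, List.mem_range]
  constructor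
  · rintro ⟨⟨h1, h2⟩, h3⟩
    obtain ⟨u, hu, rfl⟩ := nu_surj h1
    obtain ⟨v, hv, rfl⟩ := nu_surj h2
    refine ⟨u, v, hu, hv, ?_, rfl, rfl⟩
    simpa only [nu_get hu, nu_get hv] using h3
  · rintro ⟨u, v, hu, hv, h, rfl, rfl⟩
    refine ⟨⟨nu_lt hu, nu_lt hv⟩, ?_⟩
    simpa only [nu_get hu, nu_get hv] using h

theorem inst_edges (c : ℕ) (M : ARM) (t : Bool) (x y : ℕ) :
    ((x, y) ∈ bif t then (inst c M).2.1.1 else (inst c M).2.1.2) ↔
      ∃ u v, EE M t u v ∧ nu M u = x ∧ nu M v = y := by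
  cases t with
  | true =>
    simp only [cond_true, inst, mem_edg, EE, lL_code, and_assoc]
  | false =>
    simp only [cond_false, inst, mem_edg, EE, rL_code, and_assoc]

theorem inst_forces {c : ℕ} {M : ARM} {v0 : V} (h0 : code v0 = (c, 0, 0, 0))
    (hr : isReg v0 = false) (h : ok M v0 = true) {w : Bool} :
    Forces (Mv (inst c M)) w (start (inst c M)) ↔
      Forces (GMove (EE M)) w (decide (c = 0), pl M v0 (cf fun _ => false)) := by
  symm
  refine transport (ok := fun v => ok M v = true) (f := nu M) (fun i u v he => ⟨he.1, he.2.1⟩)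
    (fun u v hu hv h => nu_inj hu hv h) (inst_edges c M) ?_
  intro v hv
  change ((vs M).map _).getD (nu M v) false = _
  rw [List.getD_eq_getElem _ _ (by rw [List.length_map]; exact nu_lt hv), List.getElem_map]
  have h1 : (vs M)[nu M v]'(nu_lt hv) = code v := List.getElem_idxOf (nu_lt hv)
  rw [h1, ← h0]
  have h2 : (code v = code v0) ↔ v = v0 := ⟨fun h => code_inj h, fun h => by rw [h]⟩
  rw [decide_eq_decide.2 h2]
  unfold pl
  congr 1
  cases v with
  | reg j y =>
    cases y with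
    | p b =>
      have hv' : j ≤ M.1.length := by
        simp only [ok, decide_eq_true_eq] at hv
        omega
      cases b <;> simp [code, cf, hv']
    | q => simp [code, cf]
  | _ => simp [code]

theorem ladj_ne {M : ARM} {u v : V} (h : ladj M u v = true) : u ≠ v := by
  rintro rfl
  cases u with
  | reg j y => cases y <;> simp [ladj] at h
  | _ => simp [ladj] at h

theorem inst_isPosition (c : ℕ) (M : ARM) : IsPosition (inst c M) := by
  refine ⟨?_, fun e he => List.mem_append_left _ he, fun e he => List.mem_append_right _ he⟩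
  rintro ⟨x, y⟩ he
  have hlen : (inst c M).2.2.1.length = (vs M).length := by simp [inst]
  rw [hlen]
  simp only [inst, List.mem_append] at he
  rcases he with he | he
  · obtain ⟨u, v, hu, hv, h, rfl, rfl⟩ := mem_edg.1 he
    rw [lL_code] at h
    exact ⟨nu_lt hu, nu_lt hv, fun h2 => ladj_ne h (nu_inj hu hv h2)⟩
  · obtain ⟨u, v, hu, hv, h, rfl, rfl⟩ := mem_edg.1 he
    rw [rL_code] at h
    exact ⟨nu_lt hu, nu_lt hv, fun h2 => (radj_tgt h).2 (nu_inj hu hv h2).symm⟩

end Pool.Agent.X245.EB
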