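import Pool.Agent.H578R2.ANN.Game

/-!
# Edge Blocking: the game
-/

set_option autoImplicit false

namespace Pool.Agent.X245.EB

open Pool.Agent.NPC.ANN (Forces)

variable {V : Type} [DecidableEq V]

/-- A move of Edge Blocking. A position consists of the player to move (`true` is Left) and the
set of the occupied vertices; `E t` are the edges of player `t`. The player to move takes a token
from an occupied vertex `u` to an unoccupied vertex `v` along one of his edges. -/
def GMove (E : Bool → V → V → Prop) (s s' : Bool × (V → Bool)) : Prop :=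
  s'.1 = !s.1 ∧ ∃ u v, s.2 u = true ∧ s.2 v = false ∧ E s.1 u v ∧
    s'.2 = Function.update (Function.update s.2 u false) v true

/-- Renaming vertices. -/
theorem transport {E : Bool → V → V → Prop} {E' : Bool → ℕ → ℕ → Prop}
    {ok : V → Prop} {f : V → ℕ} (hE : ∀ i u v, E i u v → ok u ∧ ok v)
    (hf : ∀ u v, ok u → ok v → f u = f v → u = v)
    (hE' : ∀ i x y, E' i x y ↔ ∃ u v, E i u v ∧ f u = x ∧ f v = y)
    {t : Bool} {P : V → Bool} {Q : ℕ → Bool} (h1 : ∀ v, ok v → Q (f v) = P v)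
    {w : Bool} :
    Forces (GMove E) w (t, P) ↔ Forces (GMove E') w (t, Q) := by
  have key : ∀ (P : V → Bool) (Q : ℕ → Bool) (u v : V), ok u → ok v →
      (∀ v, ok v → Q (f v) = P v) →
      (∀ v', ok v' → (Function.update (Function.update Q (f u) false) (f v) true) (f v') =
          (Function.update (Function.update P u false) v true) v') := by
    intro P Q u v hu hv h1 v' hv'
    simp only [Function.update_apply]
    by_cases h4 : v' = v
    · subst h4
      rw [if_pos rfl, if_pos rfl]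
    · rw [if_neg h4, if_neg (fun h => h4 (hf _ _ hv' hv h))]
      by_cases h5 : v' = u
      · subst h5
        rw [if_pos rfl, if_pos rfl]
      · rw [if_neg h5, if_neg (fun h => h5 (hf _ _ hv' hu h))]
        exact h1 _ hv'
  refine Forces.bisim_iff (R := fun P Q => P.1 = Q.1 ∧ ∀ v, ok v → Q.2 (f v) = P.2 v)
    ?_ ?_ ⟨rfl, h1⟩
  · rintro ⟨t, P⟩ ⟨t', Q⟩ ⟨ht, hR⟩ ⟨s, P'⟩ ⟨hs, u, v, hu, hv, he, hP⟩
    simp only at ht hR hs hu hv he hP
    subst ht hs hP
    obtain ⟨hou, hov⟩ := hE _ _ _ he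
    exact ⟨(!t, _), ⟨rfl, f u, f v, (hR _ hou).trans hu, (hR _ hov).trans hv,
      (hE' _ _ _).2 ⟨u, v, he, rfl, rfl⟩, rfl⟩, rfl, key P Q u v hou hov hR⟩
  · rintro ⟨t, P⟩ ⟨t', Q⟩ ⟨ht, hR⟩ ⟨s, Q'⟩ ⟨hs, x, y, hx, hy, he, hQ⟩
    simp only at ht hR hs hx hy he hQ
    subst ht hs hQ
    obtain ⟨u, v, he', rfl, rfl⟩ := (hE' _ _ _).1 he
    obtain ⟨hou, hov⟩ := hE _ _ _ he'
    exact ⟨(!t, _), ⟨rfl, u, v, (hR _ hou).symm.trans hx, (hR _ hov).symm.trans hy, he', rfl⟩, rfl,
      key P Q u v hou hov hR⟩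

end Pool.Agent.X245.EB
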