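import Pool.Agent.X245.EB.Poly

/-!
# Edge Blocking: exponential-time hardness
-/

set_option autoImplicit false

namespace Pool.Agent.X245.EB

open Pool.Agent.NPC
open Pool.Agent.NPC.ANN (Forces)
open Pool.Agent.H820R2.SS

/-- Hardness for the three outcomes. -/
theorem hard_of {W : Pos → Prop} (hW : W = MoverWins ∨ W = OtherWins ∨ W = Drawn)
    {L : Set (List Bool)} (hL : InEXPTIME L) :
    Reduces L (lang (fun A : Pos => IsPosition A ∧ W A)) := by
  rcases hW with rfl | rfl | rfl
  · obtain ⟨f, h1, h2, h3⟩ := ARM578.exptime_arm (L := L) hL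
    refine ⟨fun x => bits (inst 0 (f x)), PC.toPolyTime_bits (poly_inst 0) f h1, fun x => ?_⟩
    rw [bits_mem_lang, and_iff_right (inst_isPosition _ _), MoverWins,
      inst_forces (v0 := .G) rfl rfl rfl, h3 x, ARMAcc]
    exact (win_G (h2 x) _).symm
  · obtain ⟨f, h1, h2, h3⟩ := ARM578.exptime_arm (L := L) hL
    refine ⟨fun x => bits (inst 1 (f x)), PC.toPolyTime_bits (poly_inst 1) f h1, fun x => ?_⟩
    rw [bits_mem_lang, and_iff_right (inst_isPosition _ _), OtherWins,
      inst_forces (v0 := .I) rfl rfl rfl, h3 x, ARMAcc]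
    exact (lose_I (h2 x) _).symm
  · obtain ⟨f, h1, h2, h3⟩ := ARM578.exptime_arm_compl (L := L) hL
    refine ⟨fun x => bits (inst 0 (f x)), PC.toPolyTime_bits (poly_inst 0) f h1, fun x => ?_⟩
    rw [bits_mem_lang, and_iff_right (inst_isPosition _ _), Drawn, MoverWins, OtherWins,
      inst_forces (v0 := .G) rfl rfl rfl, inst_forces (v0 := .G) rfl rfl rfl]
    have h4 := h3 x
    rw [ARMAcc, ← win_G (h2 x)] at h4
    rw [← not_iff_not, h4]
    constructor
    · intro h h'
      exact h'.1 h
    · intro h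
      by_contra h'
      exact h ⟨h', not_lose _ rfl _⟩

end Pool.Agent.X245.EB
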