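import Pool.Agent.X245.EB.Enc
import Pool.Agent.H578R2.ANN.PolyI

/-!
# Edge Blocking: the instance is computed in polynomial time; exponential-time hardness
-/

set_option autoImplicit false

namespace Pool.Agent.X245.EB

open Pool.Agent.NPC
open Pool.Agent.NPC.ANN (Forces rl pm us up ok3 Lb Bd poly_rl poly_pm poly_us poly_up poly_ok3
  uPoly_Bd)
open Pool.Agent.H820R2.SS

variable {α : Type} [TEnc α]

theorem poly_okL {M : α → ARM} {z : α → Lb} (hM : NPC.Poly M) (hz : NPC.Poly z) :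
    NPC.Poly (fun x => okL (M x) (z x)) := by
  unfold okL
  fun_prop

theorem poly_lL1 : NPC.Poly (fun p : ARM × (Lb × Lb) => lL1 p.1 p.2.1 p.2.2) := by
  unfold lL1
  fun_prop

theorem poly_lL2 : NPC.Poly (fun p : ARM × (Lb × Lb) => lL2 p.2.1 p.2.2) := by
  unfold lL2
  fun_prop

theorem poly_rL1 : NPC.Poly (fun p : ARM × (Lb × Lb) => rL1 p.2.1 p.2.2) := by
  unfold rL1
  fun_prop

theorem poly_rL2 : NPC.Poly (fun p : ARM × (Lb × Lb) => rL2 p.1 p.2.1 p.2.2) := by
  unfold rL2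
  fun_prop

theorem poly_rL3 : NPC.Poly (fun p : ARM × (Lb × Lb) => rL3 p.1 p.2.1 p.2.2) := by
  unfold rL3
  fun_prop

theorem poly_rL4 : NPC.Poly (fun p : ARM × (Lb × Lb) => rL4 p.1 p.2.1 p.2.2) := by
  unfold rL4
  fun_prop

theorem poly_lL : NPC.Poly (fun p : ARM × (Lb × Lb) => lL p.1 p.2.1 p.2.2) :=
  NPC.Poly.or poly_lL1 poly_lL2

theorem poly_rL : NPC.Poly (fun p : ARM × (Lb × Lb) => rL p.1 p.2.1 p.2.2) :=
  NPC.Poly.or (NPC.Poly.or poly_rL1 poly_rL2) (NPC.Poly.or poly_rL3 poly_rL4)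

theorem poly_vs : NPC.Poly (fun M : ARM => vs M) := by
  have h1 : NPC.Poly (fun M : ARM => List.range (Bd M)) := uPoly_Bd.range
  have h2 : NPC.Poly (fun M : ARM => ((List.range 11) ×ˢ ((List.range (Bd M)) ×ˢ
      ((List.range (Bd M)) ×ˢ (List.range (Bd M)))) : List Lb)) := by
    fun_prop
  unfold vs
  refine NPC.Poly.filter h2 ?_
  exact poly_okL (M := fun p : ARM × Lb => p.1) (z := fun p => p.2) (by fun_prop) (by fun_prop)

theorem poly_edg {t : ARM → Lb → Lb → Bool}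
    (ht : NPC.Poly (fun p : ARM × (Lb × Lb) => t p.1 p.2.1 p.2.2)) :
    NPC.Poly (fun M : ARM => edg (vs M) (t M)) := by
  have h0 := poly_vs
  have h1 : NPC.Poly (fun M : ARM => List.range (vs M).length) := (UPoly.length poly_vs).range
  have h2 : NPC.Poly (fun M : ARM => ((List.range (vs M).length) ×ˢ
      (List.range (vs M).length) : List (ℕ × ℕ))) := by
    fun_prop
  unfold edg
  refine NPC.Poly.filter h2 ?_
  have h3 : NPC.Poly (fun p : ARM × (ℕ × ℕ) => vs p.1) := h0.comp (NPC.Poly.fst NPC.Poly.id)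
  exact ht.comp (f := fun p : ARM × (ℕ × ℕ) => (p.1, ((vs p.1).getD p.2.1 (0, 0, 0, 0),
    (vs p.1).getD p.2.2 (0, 0, 0, 0)))) (by fun_prop)

theorem poly_inst (c : ℕ) : NPC.Poly (fun M : ARM => inst c M) := by
  have h0 := poly_vs
  have h1 : NPC.Poly (fun M : ARM => edg (vs M) (lL M)) := by
    exact poly_edg (t := fun M => lL M) poly_lL
  have h2 : NPC.Poly (fun M : ARM => edg (vs M) (rL M)) := by
    exact poly_edg (t := fun M => rL M) poly_rL
  unfold inst
  fun_prop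

end Pool.Agent.X245.EB
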